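import Pool.Agent.Helper28.LV.StL

/-!
# Project LV, module F2: level `p^2`
-/

set_option autoImplicit false

namespace Pool.Agent.Helper15.LV

open Pool.Agent.Helper14.CV Pool.Agent.Helper28.WK Pool.Agent.Helper28.LV

private theorem nzB {a h x y : ℤ} (hxy : x ≠ 0 ∨ y ≠ 0) : x + a * h * y ≠ 0 ∨ y ≠ 0 := by
  by_cases hy : y = 0
  · left
    subst hy
    simpa using hxy
  · exact Or.inr hy

private theorem nzC {a h x y : ℤ} (hxy : x ≠ 0 ∨ y ≠ 0) : x ≠ 0 ∨ a * h * x + y ≠ 0 := by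
  by_cases hx : x = 0
  · right
    subst hx
    simpa using hxy
  · exact Or.inl hx

private theorem Nb_congr {R : Type} [AddCommGroup R] (a : ℕ) (h : ℤ) {H H' : ℤ → ℤ → R}
    (e : EqC H H') : EqC (Nb a h H) (Nb a h H') := by
  obtain ⟨k, hk⟩ := e
  refine ⟨∑ j ∈ Finset.range (a + 2), ((-1 : ℤ) ^ j * ((a + 1).choose j : ℤ)) • k,
    fun x y hxy => ?_⟩
  simp only [Nb]
  rw [← Finset.sum_add_distrib]
  refine Finset.sum_congr rfl fun j _ => ?_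
  rw [hk _ _ (nzB hxy), smul_add]

private theorem Nc_congr {R : Type} [AddCommGroup R] (a : ℕ) (c : ℤ) {H H' : ℤ → ℤ → R}
    (e : EqC H H') : EqC (Nc a c H) (Nc a c H') := by
  obtain ⟨k, hk⟩ := e
  refine ⟨∑ j ∈ Finset.range (a + 2), ((-1 : ℤ) ^ j * ((a + 1).choose j : ℤ)) • k,
    fun x y hxy => ?_⟩
  simp only [Nc]
  rw [← Finset.sum_add_distrib]
  refine Finset.sum_congr rfl fun j _ => ?_
  rw [hk _ _ (nzC hxy), smul_add]

private theorem Nb_add {R : Type} [AddCommGroup R] (a : ℕ) (h : ℤ) (H H' : ℤ → ℤ → R) :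
    Nb a h (H + H') = Nb a h H + Nb a h H' := by
  funext x y
  simp only [Nb, Pi.add_apply, smul_add, Finset.sum_add_distrib]

private theorem Nc_add {R : Type} [AddCommGroup R] (a : ℕ) (c : ℤ) (H H' : ℤ → ℤ → R) :
    Nc a c (H + H') = Nc a c H + Nc a c H' := by
  funext x y
  simp only [Nc, Pi.add_apply, smul_add, Finset.sum_add_distrib]

private theorem Nb_smul {R : Type} [AddCommGroup R] (a : ℕ) (h s : ℤ) (H : ℤ → ℤ → R) :
    Nb a h (s • H) = s • Nb a h H := by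
  funext x y
  simp only [Nb, Pi.smul_apply, Finset.smul_sum]
  refine Finset.sum_congr rfl fun j _ => ?_
  rw [smul_comm]

private theorem Nc_smul {R : Type} [AddCommGroup R] (a : ℕ) (c s : ℤ) (H : ℤ → ℤ → R) :
    Nc a c (s • H) = s • Nc a c H := by
  funext x y
  simp only [Nc, Pi.smul_apply, Finset.smul_sum]
  refine Finset.sum_congr rfl fun j _ => ?_
  rw [smul_comm]

private theorem smul_zero' {R : Type} [AddCommGroup R] (s : ℤ) {H : ℤ → ℤ → R} (h : EqC H 0) :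
    EqC (s • H) 0 := by
  have := h.smul s
  rwa [smul_zero] at this

private theorem add_zero' {R : Type} [AddCommGroup R] {H H' : ℤ → ℤ → R} (h : EqC H 0)
    (h' : EqC H' 0) : EqC (H + H') 0 := by
  have := h.add h'
  rwa [add_zero] at this

private theorem sub_zero' {R : Type} [AddCommGroup R] {H H' : ℤ → ℤ → R} (h : EqC (H + H') 0)
    (h' : EqC H' 0) : EqC H 0 := by
  have := h.sub h'
  rwa [add_sub_cancel_right, sub_zero] at this

/-- The symbol of level (M, M - 1) composed with `u`. -/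
private theorem lev_u {p : ℕ} [Fact p.Prime] {ψ : ℤ → ℤ → ℤ_[p]} (M : ℕ) (hM : 3 ≤ M)
    (h : SymP p M (M - 1) (redP M ψ)) : SymP p M (M + 1) (redP M (act (p : ℤ) 0 0 1 ψ)) := by
  have hp : (p : ℤ) ≠ 0 := by exact_mod_cast (Fact.out : p.Prime).ne_zero
  have e0 : redP M (act (p : ℤ) 0 0 1 ψ) = act (p : ℤ) 0 0 1 (redP M ψ) := rfl
  rw [e0]
  refine ⟨h.1.act (by simpa using hp), fun α β γ δ hd hb hc => ?_⟩
  obtain ⟨c, rfl⟩ := hc
  have e1 : act α β ((p : ℤ) ^ (M + 1) * c) δ (act (p : ℤ) 0 0 1 (redP M ψ)) =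
      act (p : ℤ) 0 0 1 (act α (p * β) ((p : ℤ) ^ M * c) δ (redP M ψ)) := by
    rw [act_act, act_act]
    congr 1 <;> ring
  rw [e1]
  refine (h.2 α (p * β) ((p : ℤ) ^ M * c) δ ?_ (Dvd.dvd.mul_left hb _) ?_).act (by simpa using hp)
  · rw [← hd]; ring
  · exact Dvd.dvd.mul_right (pow_dvd_pow _ (by omega)) _

/-- The symbol of level (M, M - 1) composed with `S`. -/
private theorem lev_S {p : ℕ} [Fact p.Prime] {ψ : ℤ → ℤ → ℤ_[p]} (M : ℕ) (hM : 3 ≤ M)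
    (h : SymP p M (M - 1) (redP M ψ)) : SymP p M (M + 1) (redP M (act 0 (-1) 1 0 ψ)) := by
  have e0 : redP M (act 0 (-1) 1 0 ψ) = act 0 (-1) 1 0 (redP M ψ) := rfl
  rw [e0]
  refine ⟨h.1.act (by norm_num), fun α β γ δ hd hb hc => ?_⟩
  have e1 : act α β γ δ (act 0 (-1) 1 0 (redP M ψ)) =
      act 0 (-1) 1 0 (act δ (-γ) (-β) α (redP M ψ)) := by
    rw [act_act, act_act]
    congr 1 <;> ring
  rw [e1]
  refine (h.2 δ (-γ) (-β) α ?_ ?_ ?_).act (by norm_num)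
  · rw [← hd]; ring
  · exact (dvd_neg).mpr ((pow_dvd_pow _ (by omega)).trans hc)
  · exact (dvd_neg).mpr ((pow_dvd_pow _ (by omega)).trans hb)

private theorem Nb_S {R : Type} [AddCommGroup R] (a : ℕ) (h : ℤ) (H : ℤ → ℤ → R) :
    Nb a h (act 0 (-1) 1 0 H) = act 0 (-1) 1 0 (Nc a (-h) H) := by
  funext x y
  simp only [Nb, Nc, act]
  refine Finset.sum_congr rfl fun j _ => ?_
  congr 2 <;> ring

private theorem Nc_S {R : Type} [AddCommGroup R] (a : ℕ) (c : ℤ) (H : ℤ → ℤ → R) :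
    Nc a c (act 0 (-1) 1 0 H) = act 0 (-1) 1 0 (Nb a (-c) H) := by
  funext x y
  simp only [Nb, Nc, act]
  refine Finset.sum_congr rfl fun j _ => ?_
  congr 2 <;> ring

private theorem act_zero {R : Type} [AddCommGroup R] {H : ℤ → ℤ → R} (h : EqC H 0)
    {a b c d : ℤ} (hd : a * d - b * c ≠ 0) : EqC (act a b c d H) 0 := by
  have := h.act hd
  exact this

/-- Equivariance. -/
private theorem equivG (hT : RgT) (hU : RgU) (p : ℕ) [hp : Fact p.Prime] (a : ℕ)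
    (H : ℤ → ℤ → ℤ_[p]) (Q : ℤ → ℤ → ℤ → ℤ → Prop)
    (hQ1 : ∀ α β γ δ : ℤ, (p : ℤ) ∣ β → (p : ℤ) ∣ γ → Q α β γ δ)
    (hQ2 : ∀ α β γ δ x y z t : ℤ, Q α β γ δ → Q x y z t →
      Q (α * x + β * z) (α * y + β * t) (γ * x + δ * z) (γ * y + δ * t))
    (F : ℤ → ℤ → ℤ → ℤ → ℚ_[p] → ℚ_[p] → ℚ_[p] → ℚ_[p] → ℚ_[p])
    (hF : ∀ v1 v2 w1 w2 : ℤ, (v1 ≠ 0 ∨ v2 ≠ 0) → (w1 ≠ 0 ∨ w2 ≠ 0) →
      Rg a (F v1 v2 w1 w2) ∧ ∀ α β γ δ : ℤ, α * δ - β * γ = 1 → Q α β γ δ →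
      ((H (α * w1 + β * w2) (γ * w1 + δ * w2) - H (α * v1 + β * v2) (γ * v1 + δ * v2) : ℤ_[p]) :
        ℚ_[p]) = F v1 v2 w1 w2 α β γ δ)
    (v1 v2 w1 w2 : ℤ) (hv : v1 ≠ 0 ∨ v2 ≠ 0) (hw : w1 ≠ 0 ∨ w2 ≠ 0) (x y z t : ℤ)
    (hd : x * t - y * z = 1) (hQ : Q x y z t) (α β γ δ : ℚ_[p]) :
    F (x * v1 + y * v2) (z * v1 + t * v2) (x * w1 + y * w2) (z * w1 + t * w2) α β γ δ =
      F v1 v2 w1 w2 (α * x + β * z) (α * y + β * t) (γ * x + δ * z) (γ * y + δ * t) := by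
  have hd0 : x * t - y * z ≠ 0 := by rw [hd]; exact one_ne_zero
  obtain ⟨r1, f1⟩ := hF _ _ _ _ (ne_zero_of_det hd0 hv) (ne_zero_of_det hd0 hw)
  obtain ⟨r2, f2⟩ := hF _ _ _ _ hv hw
  have r3 := (hT p hp a _ r2).1 (x : ℚ_[p]) y z t
  have r4 := (hT p hp a _ r1).2.2.2.1 _ 1 (-1) r3
  have key := hU p hp a 1 _ r4 (fun α β γ δ h1 _ h3 h4 _ => ?_) α β γ δ
  · linear_combination key
  · rw [pow_one] at h3 h4
    have q1 : Q α β γ δ := hQ1 _ _ _ _ h3 h4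
    have g1 := f1 α β γ δ h1 q1
    have g2 := f2 (α * x + β * z) (α * y + β * t) (γ * x + δ * z) (γ * y + δ * t)
      (by linear_combination (α * δ - β * γ) * hd + h1) (hQ2 _ _ _ _ _ _ _ _ q1 hQ)
    have e1 : (α * x + β * z) * w1 + (α * y + β * t) * w2 =
      α * (x * w1 + y * w2) + β * (z * w1 + t * w2) := by ring
    have e2 : (γ * x + δ * z) * w1 + (γ * y + δ * t) * w2 =
      γ * (x * w1 + y * w2) + δ * (z * w1 + t * w2) := by ring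
    have e3 : (α * x + β * z) * v1 + (α * y + β * t) * v2 =
      α * (x * v1 + y * v2) + β * (z * v1 + t * v2) := by ring
    have e4 : (γ * x + δ * z) * v1 + (γ * y + δ * t) * v2 =
      γ * (x * v1 + y * v2) + δ * (z * v1 + t * v2) := by ring
    rw [e1, e2, e3, e4, g1] at g2
    push_cast at g2
    simp only [g2]
    ring

/-- The function `F_{gD}(g⁻¹)`. -/
private noncomputable def mm {p : ℕ} [Fact p.Prime]
    (F : ℤ → ℤ → ℤ → ℤ → ℚ_[p] → ℚ_[p] → ℚ_[p] → ℚ_[p] → ℚ_[p]) (v1 v2 w1 w2 : ℤ)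
    (α β γ δ : ℤ) : ℚ_[p] :=
  F (α * v1 + β * v2) (γ * v1 + δ * v2) (α * w1 + β * w2) (γ * w1 + δ * w2)
    (δ : ℚ_[p]) (-(β : ℚ_[p])) (-(γ : ℚ_[p])) (α : ℚ_[p])

private theorem mm_inv {p : ℕ} [Fact p.Prime] (Q : ℤ → ℤ → ℤ → ℤ → Prop)
    (F : ℤ → ℤ → ℤ → ℤ → ℚ_[p] → ℚ_[p] → ℚ_[p] → ℚ_[p] → ℚ_[p])
    (hE : ∀ v1 v2 w1 w2 : ℤ, (v1 ≠ 0 ∨ v2 ≠ 0) → (w1 ≠ 0 ∨ w2 ≠ 0) → ∀ x y z t : ℤ,
      x * t - y * z = 1 → Q x y z t → ∀ α β γ δ : ℚ_[p],
      F (x * v1 + y * v2) (z * v1 + t * v2) (x * w1 + y * w2) (z * w1 + t * w2) α β γ δ =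
      F v1 v2 w1 w2 (α * x + β * z) (α * y + β * t) (γ * x + δ * z) (γ * y + δ * t))
    (v1 v2 w1 w2 : ℤ) (hv : v1 ≠ 0 ∨ v2 ≠ 0) (hw : w1 ≠ 0 ∨ w2 ≠ 0)
    (x y z t α β γ δ : ℤ) (h1 : x * t - y * z = 1) (h2 : α * δ - β * γ = 1) (hQ : Q x y z t) :
    mm F v1 v2 w1 w2 (x * α + y * γ) (x * β + y * δ) (z * α + t * γ) (z * β + t * δ) =
      mm F v1 v2 w1 w2 α β γ δ := by
  have hd0 : α * δ - β * γ ≠ 0 := by rw [h2]; exact one_ne_zero
  have h := hE _ _ _ _ (ne_zero_of_det hd0 hv) (ne_zero_of_det hd0 hw) x y z t h1 hQ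
    (((z * β + t * δ : ℤ)) : ℚ_[p]) (-((x * β + y * δ : ℤ) : ℚ_[p]))
    (-((z * α + t * γ : ℤ) : ℚ_[p])) ((x * α + y * γ : ℤ) : ℚ_[p])
  have h1' : (x : ℚ_[p]) * t - y * z = 1 := by exact_mod_cast h1
  have e1 : (x * α + y * γ) * v1 + (x * β + y * δ) * v2 =
    x * (α * v1 + β * v2) + y * (γ * v1 + δ * v2) := by ring
  have e2 : (z * α + t * γ) * v1 + (z * β + t * δ) * v2 =
    z * (α * v1 + β * v2) + t * (γ * v1 + δ * v2) := by ring
  have e3 : (x * α + y * γ) * w1 + (x * β + y * δ) * w2 =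
    x * (α * w1 + β * w2) + y * (γ * w1 + δ * w2) := by ring
  have e4 : (z * α + t * γ) * w1 + (z * β + t * δ) * w2 =
    z * (α * w1 + β * w2) + t * (γ * w1 + δ * w2) := by ring
  unfold mm
  rw [e1, e2, e3, e4, h]
  congr 1
  · push_cast
    linear_combination (δ : ℚ_[p]) * h1'
  · push_cast
    linear_combination (-(β : ℚ_[p])) * h1'
  · push_cast
    linear_combination (-(γ : ℚ_[p])) * h1'
  · push_cast
    linear_combination (α : ℚ_[p]) * h1'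

theorem hF2 : StF2 := by
  intro hMC hT hU hEG hM2B hAV hW2 p hp a Φ ψ hΦ hψ hlev hG hNb hNc
  have hp0 : (p : ℤ) ≠ 0 := by exact_mod_cast (Fact.out : p.Prime).ne_zero
  obtain ⟨k, hk⟩ := hG
  obtain ⟨w2b, w2c⟩ := hW2 p hp a 0 Φ hΦ
  have hθE : EqC (act (p : ℤ) 0 0 1 ψ) (ψ + (4 : ℤ) • cp Φ a) := by
    refine ⟨k, fun x y hxy => ?_⟩
    have := hk x y hxy
    simp only [Pi.sub_apply, Pi.add_apply] at this ⊢
    linear_combination this
  -- `F'` for `θ`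
  have h1 : ∀ v1 v2 w1 w2 : ℤ, ∃ F : ℚ_[p] → ℚ_[p] → ℚ_[p] → ℚ_[p] → ℚ_[p],
      (v1 ≠ 0 ∨ v2 ≠ 0) → (w1 ≠ 0 ∨ w2 ≠ 0) → Rg a F ∧ ∀ α β γ δ : ℤ,
      α * δ - β * γ = 1 → (p : ℤ) ∣ γ →
      ((act (p : ℤ) 0 0 1 ψ (α * w1 + β * w2) (γ * w1 + δ * w2) -
        act (p : ℤ) 0 0 1 ψ (α * v1 + β * v2) (γ * v1 + δ * v2) : ℤ_[p]) :
        ℚ_[p]) = F α β γ δ := by
    intro v1 v2 w1 w2
    by_cases hv : v1 ≠ 0 ∨ v2 ≠ 0
    · by_cases hw : w1 ≠ 0 ∨ w2 ≠ 0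
      · obtain ⟨F, hF1, hF2⟩ := hMC p hp a 1 (act (p : ℤ) 0 0 1 ψ) le_rfl
          (hψ.act (by simpa using hp0)) (fun M hM => lev_u M hM (hlev M hM))
          (fun h => (Nb_congr a h hθE).trans (hNb h))
          (fun c hc => (Nc_congr a c hθE).trans (by
            rw [Nc_add, Nc_smul]
            exact add_zero' (hNc c) (smul_zero' 4 (w2c c (by simpa using hc)))))
          v1 v2 w1 w2 hv hw
        exact ⟨F, fun _ _ => ⟨hF1, fun α β γ δ h1 h2 => hF2 α β γ δ h1 (by simpa using h2)⟩⟩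
      · exact ⟨0, fun _ h => absurd h hw⟩
    · exact ⟨0, fun h _ => absurd h hv⟩
  choose F' hF' using h1
  -- `F` for `ψ`
  have h2 : ∀ v1 v2 w1 w2 : ℤ, ∃ F : ℚ_[p] → ℚ_[p] → ℚ_[p] → ℚ_[p] → ℚ_[p],
      (v1 ≠ 0 ∨ v2 ≠ 0) → (w1 ≠ 0 ∨ w2 ≠ 0) → Rg a F ∧ ∀ α β γ δ : ℤ,
      α * δ - β * γ = 1 → (p : ℤ) ∣ β →
      ((ψ (α * w1 + β * w2) (γ * w1 + δ * w2) -
        ψ (α * v1 + β * v2) (γ * v1 + δ * v2) : ℤ_[p]) :
        ℚ_[p]) = F α β γ δ := by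
    intro v1 v2 w1 w2
    by_cases hv : v1 ≠ 0 ∨ v2 ≠ 0
    · by_cases hw : w1 ≠ 0 ∨ w2 ≠ 0
      · obtain ⟨F, hF1, hF2⟩ := hMC p hp a 1 (act 0 (-1) 1 0 ψ) le_rfl
          (hψ.act (by norm_num)) (fun M hM => lev_S M hM (hlev M hM))
          (fun h => by
            rw [Nb_S]
            exact act_zero (hNc (-h)) (by norm_num))
          (fun c hc => by
            rw [Nc_S]
            refine act_zero ?_ (by norm_num)
            have hc' : (p : ℤ) ∣ -c := (dvd_neg).mpr (by simpa using hc)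
            have := hNb (-c)
            rw [Nb_add, Nb_smul] at this
            exact sub_zero' this (smul_zero' 4 (w2b (-c) hc')))
          v2 (-v1) w2 (-w1)
          (by rcases hv with h | h; exacts [Or.inr (neg_ne_zero.mpr h), Or.inl h])
          (by rcases hw with h | h; exacts [Or.inr (neg_ne_zero.mpr h), Or.inl h])
        refine ⟨fun α β γ δ => F δ (-γ) (-β) α, fun _ _ => ⟨?_, fun α β γ δ h1 h2 => ?_⟩⟩
        · have r1 := (hT p hp a F hF1).2.2.1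
          have r2 := (hT p hp a _ r1).1 0 1 (-1) 0
          have e : (fun α β γ δ : ℚ_[p] => F (-(γ * 0 + δ * -1)) (-(γ * 1 + δ * 0))
            (α * 0 + β * -1) (α * 1 + β * 0)) = fun α β γ δ => F δ (-γ) (-β) α := by
            funext α β γ δ
            congr 1 <;> ring
          rw [← e]
          exact r2
        · have g := hF2 δ (-γ) (-β) α (by linear_combination h1) (by simpa using h2)
          simp only [act] at g
          push_cast at g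
          change _ = F (δ : ℚ_[p]) (-(γ : ℚ_[p])) (-(β : ℚ_[p])) (α : ℚ_[p])
          rw [← g]
          push_cast
          congr 3 <;> ring
      · exact ⟨0, fun _ h => absurd h hw⟩
    · exact ⟨0, fun h _ => absurd h hv⟩
  choose F hF using h2
  -- equivariance
  have hE' := equivG hT hU p a (act (p : ℤ) 0 0 1 ψ) (fun _ _ γ _ => (p : ℤ) ∣ γ)
    (fun _ _ _ _ _ h => h)
    (fun α β γ δ x y z t h1 h2 => dvd_add (Dvd.dvd.mul_right h1 _) (Dvd.dvd.mul_left h2 _)) F' hF'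
  have hE := equivG hT hU p a ψ (fun _ β _ _ => (p : ℤ) ∣ β)
    (fun _ _ _ _ h _ => h)
    (fun α β γ δ x y z t h1 h2 => dvd_add (Dvd.dvd.mul_left h2 _) (Dvd.dvd.mul_right h1 _)) F hF
  obtain ⟨eg1, -, eg3, eg4⟩ := hEG p hp a Φ
  -- `4 EGf = F' - F`
  have hR : ∀ v1 v2 w1 w2 : ℤ, (v1 ≠ 0 ∨ v2 ≠ 0) → (w1 ≠ 0 ∨ w2 ≠ 0) → ∀ α β γ δ : ℚ_[p],
      F' v1 v2 w1 w2 α β γ δ - F v1 v2 w1 w2 α β γ δ = 4 * EGf a Φ v1 v2 w1 w2 α β γ δ := by
    intro v1 v2 w1 w2 hv hw α β γ δ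
    obtain ⟨r1, f1⟩ := hF' v1 v2 w1 w2 hv hw
    obtain ⟨r2, f2⟩ := hF v1 v2 w1 w2 hv hw
    have r3 := (hT p hp a _ r1).2.2.2.1 _ 1 (-1) r2
    have r4 := (hT p hp a _ r3).2.2.2.1 _ 1 (-4) (eg1 v1 v2 w1 w2)
    have key := hU p hp a 1 _ r4 (fun α β γ δ h1 _ h3 h4 _ => ?_) α β γ δ
    · linear_combination key
    · rw [pow_one] at h3 h4
      have hd0 : α * δ - β * γ ≠ 0 := by rw [h1]; exact one_ne_zero
      have g1 := f1 α β γ δ h1 h4
      have g2 := f2 α β γ δ h1 h3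
      have g3 := eg4 v1 v2 w1 w2 α β γ δ hv hw (by
        have := hΦ.eqv α β γ δ h1 h3 (by simpa using h4) a (by omega)
        rwa [show 2 * a - a = a by omega] at this)
      have k1 := hk _ _ (ne_zero_of_det hd0 hv)
      have k2 := hk _ _ (ne_zero_of_det hd0 hw)
      simp only [Pi.sub_apply, Pi.smul_apply, cp, zsmul_eq_mul] at k1 k2
      rw [← g1, ← g2, ← g3]
      have k1' := congrArg (fun q : ℤ_[p] => (q : ℚ_[p])) k1
      have k2' := congrArg (fun q : ℤ_[p] => (q : ℚ_[p])) k2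
      have h4 : ((4 : ℤ_[p]) : ℚ_[p]) = 4 := rfl
      push_cast at k1' k2' ⊢
      rw [h4] at k1' k2'
      linear_combination k2' - k1'
  -- the main part
  have main : ∀ v1 v2 w1 w2 : ℤ, (v1 ≠ 0 ∨ v2 ≠ 0) → (w1 ≠ 0 ∨ w2 ≠ 0) →
      Φ w1 w2 a = Φ v1 v2 a := by
    intro v1 v2 w1 w2 hv hw
    have i1 := mm_inv (fun _ β _ _ => (p : ℤ) ∣ β) F hE v1 v2 w1 w2 hv hw
    have i2 := mm_inv (fun _ _ γ _ => (p : ℤ) ∣ γ) F' hE' v1 v2 w1 w2 hv hw
    have hav := hAV p hp (mm F v1 v2 w1 w2) (mm F' v1 v2 w1 w2)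
      (fun x y z t α β γ δ h1 h2 h3 => i1 x y z t α β γ δ h1 h2 h3)
      (fun x y z t α β γ δ h1 h2 h3 => i2 x y z t α β γ δ h1 h2 h3)
      (fun α β γ δ h1 => ?_) (fun α β γ δ h1 => ?_) 1 0 0 1 (by norm_num)
    · have hr := hR v1 v2 w1 w2 hv hw 1 0 0 1
      rw [eg3] at hr
      have e : ∀ K : ℤ → ℤ → ℤ → ℤ → ℚ_[p] → ℚ_[p] → ℚ_[p] → ℚ_[p] → ℚ_[p],
          mm K v1 v2 w1 w2 1 0 0 1 = K v1 v2 w1 w2 1 0 0 1 := by
        intro K
        simp [mm]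
      rw [e, e] at hav
      rw [hav, sub_self] at hr
      have h4 : (4 : ℚ_[p]) ≠ 0 := by norm_num
      have h5 := (mul_eq_zero.mp hr.symm).resolve_left h4
      have h6 : Φ w1 w2 a - Φ v1 v2 a = 0 := PadicInt.coe_eq_zero.mp h5
      exact sub_eq_zero.mp h6
    · have hd0 : α * δ - β * γ ≠ 0 := by rw [h1]; exact one_ne_zero
      have hm := (hM2B p hp a Φ hΦ _ _ _ _ (ne_zero_of_det hd0 hv) (ne_zero_of_det hd0 hw)
        (δ : ℚ_[p]) (-(β : ℚ_[p])) (-(γ : ℚ_[p])) (α : ℚ_[p])).1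
      have e1 : ∀ i ∈ Finset.range p, mm F v1 v2 w1 w2 (α + i * γ) (β + i * δ) γ δ =
          mm F' v1 v2 w1 w2 α β γ δ - 4 * EGf a Φ (α * v1 + β * v2 + i * (γ * v1 + δ * v2))
            (γ * v1 + δ * v2) (α * w1 + β * w2 + i * (γ * w1 + δ * w2)) (γ * w1 + δ * w2)
            (δ : ℚ_[p]) (-(β : ℚ_[p]) - i * (δ : ℚ_[p])) (-(γ : ℚ_[p]))
            ((α : ℚ_[p]) - i * (-(γ : ℚ_[p]))) := by
        intro i _
        have j2 := i2 1 i 0 1 α β γ δ (by ring) h1 (dvd_zero _)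
        have d1 : (α + i * γ) * δ - (β + i * δ) * γ ≠ 0 := by
          rw [show (α + i * γ) * δ - (β + i * δ) * γ = α * δ - β * γ by ring]
          exact hd0
        have hr := hR _ _ _ _ (ne_zero_of_det d1 hv) (ne_zero_of_det d1 hw)
          (δ : ℚ_[p]) (-((β + i * δ : ℤ) : ℚ_[p])) (-(γ : ℚ_[p])) ((α + i * γ : ℤ) : ℚ_[p])
        have f1 : mm F' v1 v2 w1 w2 (1 * α + i * γ) (1 * β + i * δ) (0 * α + 1 * γ)
            (0 * β + 1 * δ) = mm F' v1 v2 w1 w2 (α + i * γ) (β + i * δ) γ δ := by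
          congr 1 <;> ring
        rw [← j2, f1]
        have f2 : EGf a Φ ((α + i * γ) * v1 + (β + i * δ) * v2) (γ * v1 + δ * v2)
            ((α + i * γ) * w1 + (β + i * δ) * w2) (γ * w1 + δ * w2)
            (δ : ℚ_[p]) (-((β + i * δ : ℤ) : ℚ_[p])) (-(γ : ℚ_[p])) ((α + i * γ : ℤ) : ℚ_[p]) =
            EGf a Φ (α * v1 + β * v2 + i * (γ * v1 + δ * v2))
            (γ * v1 + δ * v2) (α * w1 + β * w2 + i * (γ * w1 + δ * w2)) (γ * w1 + δ * w2)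
            (δ : ℚ_[p]) (-(β : ℚ_[p]) - i * (δ : ℚ_[p])) (-(γ : ℚ_[p]))
            ((α : ℚ_[p]) - i * (-(γ : ℚ_[p]))) := by
          congr 1
          · ring
          · ring
          · push_cast; ring
          · push_cast; ring
        rw [← f2, ← hr]
        simp only [mm]
        ring
      rw [Finset.sum_congr rfl e1, Finset.sum_sub_distrib, ← Finset.mul_sum, hm]
      simp
    · have hd0 : α * δ - β * γ ≠ 0 := by rw [h1]; exact one_ne_zero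
      have hm := (hM2B p hp a Φ hΦ _ _ _ _ (ne_zero_of_det hd0 hv) (ne_zero_of_det hd0 hw)
        (δ : ℚ_[p]) (-(β : ℚ_[p])) (-(γ : ℚ_[p])) (α : ℚ_[p])).2
      have e1 : ∀ i ∈ Finset.range p, mm F' v1 v2 w1 w2 α β (i * α + γ) (i * β + δ) =
          mm F v1 v2 w1 w2 α β γ δ + 4 * EGf a Φ (α * v1 + β * v2)
            (i * (α * v1 + β * v2) + (γ * v1 + δ * v2)) (α * w1 + β * w2)
            (i * (α * w1 + β * w2) + (γ * w1 + δ * w2))
            ((δ : ℚ_[p]) - i * (-(β : ℚ_[p]))) (-(β : ℚ_[p])) (-(γ : ℚ_[p]) - i * (α : ℚ_[p]))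
            (α : ℚ_[p]) := by
        intro i _
        have j2 := i1 1 0 i 1 α β γ δ (by ring) h1 (dvd_zero _)
        have d1 : α * (i * β + δ) - β * (i * α + γ) ≠ 0 := by
          rw [show α * (i * β + δ) - β * (i * α + γ) = α * δ - β * γ by ring]
          exact hd0
        have hr := hR _ _ _ _ (ne_zero_of_det d1 hv) (ne_zero_of_det d1 hw)
          ((i * β + δ : ℤ) : ℚ_[p]) (-(β : ℚ_[p])) (-((i * α + γ : ℤ) : ℚ_[p])) (α : ℚ_[p])
        have f1 : mm F v1 v2 w1 w2 (1 * α + 0 * γ) (1 * β + 0 * δ) (i * α + 1 * γ)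
            (i * β + 1 * δ) = mm F v1 v2 w1 w2 α β (i * α + γ) (i * β + δ) := by
          congr 1 <;> ring
        rw [← j2, f1]
        have f2 : EGf a Φ (α * v1 + β * v2) ((i * α + γ) * v1 + (i * β + δ) * v2)
            (α * w1 + β * w2) ((i * α + γ) * w1 + (i * β + δ) * w2)
            ((i * β + δ : ℤ) : ℚ_[p]) (-(β : ℚ_[p])) (-((i * α + γ : ℤ) : ℚ_[p])) (α : ℚ_[p]) =
            EGf a Φ (α * v1 + β * v2)
            (i * (α * v1 + β * v2) + (γ * v1 + δ * v2)) (α * w1 + β * w2)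
            (i * (α * w1 + β * w2) + (γ * w1 + δ * w2))
            ((δ : ℚ_[p]) - i * (-(β : ℚ_[p]))) (-(β : ℚ_[p])) (-(γ : ℚ_[p]) - i * (α : ℚ_[p]))
            (α : ℚ_[p]) := by
          congr 1
          · ring
          · ring
          · push_cast; ring
          · push_cast; ring
        rw [← f2, ← hr]
        simp only [mm]
        ring
      rw [Finset.sum_congr rfl e1, Finset.sum_add_distrib, ← Finset.mul_sum, hm]
      simp
  refine ⟨cp Φ a 1 0, fun x y hxy => ?_⟩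
  simp only [cp, Pi.zero_apply, zero_add]
  exact main 1 0 x y (Or.inl one_ne_zero) hxy

end Pool.Agent.Helper15.LV
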